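import Pool.Agent.H80.G2.Targets

/-!
# FCT: products in a factor
-/

set_option autoImplicit false

open scoped InnerProductSpace
open Pool.Agent.H80.G2

namespace Pool.Agent.H34.G2

variable {H : Type} [NormedAddCommGroup H] [InnerProductSpace ℂ H] [CompleteSpace H]

/-- an operator which leaves `K` invariant together with its adjoint commutes with the projection -/
theorem proj_comm (K : Submodule ℂ H) [K.HasOrthogonalProjection] (T : H →L[ℂ] H)
    (h1 : ∀ k ∈ K, T k ∈ K) (h2 : ∀ k ∈ K, (star T) k ∈ K) :
    K.starProjection * T = T * K.starProjection := by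
  ext z
  change K.starProjection (T z) = T (K.starProjection z)
  have h3 : T z = T (K.starProjection z) + T (z - K.starProjection z) := by
    rw [← map_add]
    congr 1
    abel
  have h4 : T (z - K.starProjection z) ∈ Kᗮ := by
    rw [Submodule.mem_orthogonal]
    intro k hk
    have h5 := (Submodule.mem_orthogonal K _).mp
      (K.sub_starProjection_mem_orthogonal z) _ (h2 k hk)
    rw [ContinuousLinearMap.star_eq_adjoint, ContinuousLinearMap.adjoint_inner_left] at h5
    exact h5
  have h5 : K.starProjection (T (K.starProjection z)) = T (K.starProjection z) :=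
    Submodule.starProjection_eq_self_iff.mpr (h1 _ (K.starProjection_apply_mem z))
  rw [h3, map_add, h5, (Submodule.starProjection_apply_eq_zero_iff _).mpr h4, add_zero]

/-- the generators -/
def gens (P : VonNeumannAlgebra H) (x : H →L[ℂ] H) : Set H :=
  {z | ∃ p ∈ P, ∃ ζ : H, z = p ((star x) ζ)}

/-- the closed span of the generators -/
def KK (P : VonNeumannAlgebra H) (x : H →L[ℂ] H) : Submodule ℂ H :=
  (Submodule.span ℂ (gens P x)).topologicalClosure

theorem KK_inv (P : VonNeumannAlgebra H) (x T : H →L[ℂ] H)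
    (h : ∀ z ∈ gens P x, T z ∈ gens P x) (k : H) (hk : k ∈ KK P x) : T k ∈ KK P x := by
  have h1 : Submodule.span ℂ (gens P x) ≤ (Submodule.span ℂ (gens P x)).comap T.toLinearMap := by
    rw [Submodule.span_le]
    intro z hz
    exact Submodule.subset_span (h z hz)
  exact map_mem_closure T.continuous hk fun z hz => h1 hz

theorem gens_le (P : VonNeumannAlgebra H) (x : H →L[ℂ] H) {z : H} (hz : z ∈ gens P x) :
    z ∈ KK P x :=
  Submodule.le_topologicalClosure _ (Submodule.subset_span hz)

theorem pf_FCT : T_FCT := by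
  intro H _ _ _ P hF x hx y hxy
  by_cases hx0 : star x = 0
  · left
    rw [← star_star x, hx0, star_zero]
  right
  have hPstar : ∀ p ∈ P, star p ∈ P := fun p hp => star_mem hp
  have hmulmem : ∀ p ∈ P, ∀ q ∈ P, p * q ∈ P := fun p hp q hq => mul_mem hp hq
  have hinvP : ∀ T ∈ P, ∀ z ∈ gens P x, T z ∈ gens P x := by
    rintro T hT z ⟨p, hp, ζ, rfl⟩
    exact ⟨T * p, hmulmem T hT p hp, ζ, rfl⟩
  have hinvC : ∀ T : H →L[ℂ] H, (∀ p ∈ P, p * T = T * p) → ∀ z ∈ gens P x, T z ∈ gens P x := by
    rintro T hT z ⟨p, hp, ζ, rfl⟩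
    refine ⟨p, hp, T ζ, ?_⟩
    have h1 := congrArg (fun S : H →L[ℂ] H => S ((star x) ζ)) (hT p hp)
    have h2 := congrArg (fun S : H →L[ℂ] H => S ζ) (hT (star x) (hPstar x hx))
    change p (T ((star x) ζ)) = T (p ((star x) ζ)) at h1
    change (star x) (T ζ) = T ((star x) ζ) at h2
    rw [← h1, h2]
  have : CompleteSpace (KK P x) :=
    (Submodule.isClosed_topologicalClosure _).completeSpace_coe
  have hq : (KK P x).starProjection ∈ P := by
    apply mem_of_comm
    intro T hT
    refine proj_comm _ T (KK_inv P x T (hinvC T hT)) (KK_inv P x (star T) (hinvC _ ?_))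
    intro p hp
    have h1 := hT (star p) (hPstar p hp)
    have h2 := congrArg star h1
    rw [star_mul, star_mul, star_star] at h2
    exact h2.symm
  have hcen : ∀ T ∈ P, (KK P x).starProjection * T = T * (KK P x).starProjection := fun T hT =>
    proj_comm _ T (KK_inv P x T (hinvP T hT)) (KK_inv P x (star T) (hinvP _ (hPstar T hT)))
  obtain ⟨c, hc⟩ := hF _ hq hcen
  obtain ⟨ζ, hζ⟩ : ∃ ζ, (star x) ζ ≠ 0 := by
    by_contra h
    push Not at h
    exact hx0 (ContinuousLinearMap.ext h)
  have h1mem : (1 : H →L[ℂ] H) ∈ P := one_mem _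
  have h1 : (KK P x).starProjection ((star x) ζ) = (star x) ζ :=
    Submodule.starProjection_eq_self_iff.mpr (gens_le P x ⟨1, h1mem, ζ, rfl⟩)
  rw [hc] at h1
  have h2 : c = 1 := by
    have h3 : c • (star x) ζ = (1 : ℂ) • (star x) ζ := by
      rw [one_smul]
      exact h1
    exact smul_left_injective ℂ hζ h3
  ext η
  have h3 : (KK P x).starProjection (y η) = y η := by
    rw [hc, h2, one_smul]
    rfl
  have h4 : y η ∈ (KK P x)ᗮ := by
    rw [KK, Submodule.orthogonal_closure, Submodule.mem_orthogonal]
    intro k hk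
    induction hk using Submodule.span_induction with
    | mem k hk =>
      obtain ⟨p, hp, ζ', rfl⟩ := hk
      have h5 := hxy (star p) (hPstar p hp)
      have h6 : ⟪p ((star x) ζ'), y η⟫_ℂ = ⟪ζ', (x * star p * y) η⟫_ℂ := by
        change _ = ⟪ζ', x ((star p) (y η))⟫_ℂ
        rw [ContinuousLinearMap.star_eq_adjoint, ContinuousLinearMap.star_eq_adjoint,
          ← ContinuousLinearMap.adjoint_inner_left x, ContinuousLinearMap.adjoint_inner_right p]
      rw [h6, h5]
      simp
    | zero => simp
    | add a b _ _ ha hb => rw [inner_add_left, ha, hb, add_zero]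
    | smul a b _ hb => rw [inner_smul_left, hb, mul_zero]
  rw [(Submodule.starProjection_apply_eq_zero_iff _).mpr h4] at h3
  rw [← h3]
  rfl

end Pool.Agent.H34.G2
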